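import Mathlib
import Pool.Agent.Lib.MP_44310b_lc.Main

set_option autoImplicit false

namespace Pool.Agent.Results.MP_44310b_lc.LbalNotTwoPFA

open Pool.Agent.MP_44310b

/-- No two-way probabilistic finite automaton (finite state set, arbitrary real, in particular
arbitrary rational, transition probabilities, no bound on the running time) accepts the language of
balanced parenthesis strings with bounded error. -/
theorem result (Q : Type) [Fintype Q] (M : TwoPFA Paren Q) : ¬ AcceptsBoundedError M Lbal := by
  classical
  exact not_accepts M

end Pool.Agent.Results.MP_44310b_lc.LbalNotTwoPFA
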